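import Pool.Agent.TH428.RM.Final

set_option autoImplicit false

/-!
# Degrees into large sets, from the two-reservoir book theorem
-/

open Finset

namespace Pool.Agent.U416.Bal

open H110R2 W478R Pool.Agent.TH502.RM Pool.Agent.TH428.RM

/-- the reservoir bound -/
lemma res {Ls : List (ℝ × ℝ)} {C : ℝ} (hC : 1 ≤ C) (hB : ∀ a l : ℕ, BdAt Ls C a l) {b A B : ℝ}
    (hb : 0 < b) (hD : Dom Ls b A B) {V : Type} [DecidableEq V] (G : SimpleGraph V) (a l : ℕ)
    (Z : Finset V) (hZ : Z.Nonempty) (ha : NoCl G a Z) (hl : NoCl Gᶜ l Z) :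
    b * Real.log Z.card ≤ b * Real.log C + A * a + B * l := by
  obtain ⟨L1, h1, L2, h2, s1, s2, t, ht0, ht1, hA, hB'⟩ := hD
  have hC0 : 0 < C := by linarith
  have hA' : t * (sw s1 L1).1 + (1 - t) * (sw s2 L2).1 ≤ A / b := by
    rw [le_div_iff₀ hb]; linarith
  have hB'' : t * (sw s1 L1).2 + (1 - t) * (sw s2 L2).2 ≤ B / b := by
    rw [le_div_iff₀ hb]; linarith
  have key := free_bound hC0 (hB a l) G Z ha hl h1 h2 s1 s2 ht0 ht1 hA' hB''
  have hZpos : (0 : ℝ) < Z.card := by exact_mod_cast hZ.card_pos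
  have h3 : Real.log Z.card ≤ Real.log C + (A / b * a + B / b * l) := by
    have := Real.log_le_log hZpos key
    rwa [Real.log_mul hC0.ne' (Real.exp_pos _).ne', Real.log_exp] at this
  have h4 := mul_le_mul_of_nonneg_left h3 hb.le
  have e : b * (Real.log C + (A / b * a + B / b * l)) = b * Real.log C + A * a + B * l := by
    field_simp
    ring
  linarith

/-- bound for the sets of vertices with red degree into `Y` between `plo |Y|` and `phi |Y|` -/
def Win (b S plo phi : ℝ) : Prop :=
  ∃ c M : ℝ, ∀ (V : Type) [DecidableEq V] (G : SimpleGraph V) (k : ℕ) (X Y : Finset V),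
    X.Nonempty → M ≤ Y.card → NoCl G k (X ∪ Y) → NoCl Gᶜ k (X ∪ Y) →
    (∀ x ∈ X, plo * Y.card - 1 ≤ ((nb G x Y).card : ℝ)) →
    (∀ x ∈ X, (1 - phi) * Y.card - 1 ≤ ((nb Gᶜ x Y).card : ℝ)) →
    Real.log X.card + b * Real.log Y.card ≤ c + S * k

theorem win_two {Ls : List (ℝ × ℝ)} {C : ℝ} (hC : 1 ≤ C) (hBd : ∀ a l : ℕ, BdAt Ls C a l)
    {p1 p2 b1 b2 A B W A2 plo phi : ℝ} (hb1 : 0 < b1) (hb2 : 0 < b2) (hp1 : p1 < plo)
    (hp2 : p2 < 1 - phi) (hTB : TBook p1 p2 b1 b2 A W) (hD1 : Dom Ls b1 A B)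
    (hD2 : Dom Ls b2 A2 W) : Win (b1 + b2) (A + A2 + B + W) plo phi := by
  set δ : ℝ := min (plo - p1) (1 - phi - p2) / 2 with hδ
  have hδ0 : 0 < δ := by
    rw [hδ]
    have : 0 < min (plo - p1) (1 - phi - p2) := lt_min (by linarith) (by linarith)
    linarith
  have hδ1 : p1 + δ + δ ≤ plo := by
    have := min_le_left (plo - p1) (1 - phi - p2)
    rw [hδ]; linarith
  have hδ2 : p2 + δ + δ ≤ 1 - phi := by
    have := min_le_right (plo - p1) (1 - phi - p2)
    rw [hδ]; linarith
  obtain ⟨c, hc⟩ := hTB δ hδ0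
  refine ⟨c + (b1 + b2) * Real.log C, max 1 (1 / δ), ?_⟩
  intro V _ G k X Y hX hM h1 h2 hred hblue
  have hY1 : (1 : ℝ) ≤ Y.card := (le_max_left _ _).trans hM
  have hYδ : 1 ≤ δ * Y.card := by
    have := (le_max_right 1 (1 / δ)).trans hM
    rw [div_le_iff₀ hδ0] at this
    linarith
  have hYpos : (0 : ℝ) < Y.card := by linarith
  have hY : Y.Nonempty := by
    rw [← card_pos]
    exact_mod_cast hYpos
  have hZk : ∀ Z ⊆ Y, NoCl G k Z := fun Z hZ => h1.mono (hZ.trans subset_union_right)
  have hZl : ∀ Z ⊆ Y, NoCl Gᶜ k Z := fun Z hZ => h2.mono (hZ.trans subset_union_right)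
  have h := hc V G k k (b1 * Real.log C + B * k) (b2 * Real.log C + A2 * k) X Y Y hX hY hY h1 h2
    (by
      intro a _ Z hZY hZ hZa
      have := res hC hBd hb1 hD1 G a k Z hZ hZa (hZl Z hZY)
      linarith)
    (by
      intro t _ Z hZY hZ hZt
      have := res hC hBd hb2 hD2 G k t Z hZ (hZk Z hZY) hZt
      linarith)
    (by
      intro x hx
      have h3 := hred x hx
      have h4 := mul_le_mul_of_nonneg_right hδ1 hYpos.le
      linarith)
    (by
      intro x hx
      have h3 := hblue x hx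
      have h4 := mul_le_mul_of_nonneg_right hδ2 hYpos.le
      linarith)
  linarith

section opt

variable {V : Type}

/-- `G` with a new vertex, adjacent to all vertices -/
def optG (G : SimpleGraph V) : SimpleGraph (Option V) where
  Adj a b := match a, b with
    | some a, some b => G.Adj a b
    | none, some _ => True
    | some _, none => True
    | none, none => False
  symm := ⟨by
    intro a b h
    cases a <;> cases b <;> simp_all [SimpleGraph.adj_comm]⟩
  loopless := ⟨by
    intro a h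
    cases a <;> simp_all⟩

@[simp] lemma optG_some (G : SimpleGraph V) (a b : V) : (optG G).Adj (some a) (some b) ↔ G.Adj a b :=
  Iff.rfl

@[simp] lemma optG_none (G : SimpleGraph V) (a : V) : (optG G).Adj (some a) none := trivial

@[simp] lemma optG_compl (G : SimpleGraph V) (a b : V) :
    (optG G)ᶜ.Adj (some a) (some b) ↔ Gᶜ.Adj a b := by
  simp [SimpleGraph.compl_adj]

variable [DecidableEq V]

/-- the copy of a set -/
def cp (X : Finset V) : Finset (Option V) := X.map Function.Embedding.some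

lemma mem_cp {X : Finset V} {a : V} : some a ∈ cp X ↔ a ∈ X := by simp [cp]

lemma none_notMem_cp {X : Finset V} : none ∉ cp X := by simp [cp]

lemma card_cp (X : Finset V) : (cp X).card = X.card := by simp [cp]

lemma sub_cp {X : Finset V} {T : Finset (Option V)} (h : T ⊆ cp X) : ∃ T0 ⊆ X, T = cp T0 := by
  refine ⟨X.filter (fun a => some a ∈ T), filter_subset _ _, ?_⟩
  ext x
  cases x with
  | none => exact ⟨fun hx => absurd (h hx) none_notMem_cp, fun hx => absurd hx none_notMem_cp⟩
  | some a =>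
    rw [mem_cp, mem_filter]
    exact ⟨fun hx => ⟨mem_cp.mp (h hx), hx⟩, fun hx => hx.2⟩

lemma clq_cp {G : SimpleGraph V} {G' : SimpleGraph (Option V)}
    (hG : ∀ a b, G'.Adj (some a) (some b) ↔ G.Adj a b) {T : Finset V} {a : ℕ} :
    G'.IsNClique a (cp T) ↔ G.IsNClique a T := by
  rw [SimpleGraph.isNClique_iff, SimpleGraph.isNClique_iff, card_cp]
  refine and_congr_left fun _ => ?_
  constructor
  · intro h x hx y hy hxy
    have := h (x := some x) (by exact_mod_cast mem_cp.mpr hx) (y := some y)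
      (by exact_mod_cast mem_cp.mpr hy) (by simpa using hxy)
    exact (hG x y).mp this
  · intro h x hx y hy hxy
    cases x with
    | none => exact absurd (by exact_mod_cast hx) none_notMem_cp
    | some x =>
      cases y with
      | none => exact absurd (by exact_mod_cast hy) none_notMem_cp
      | some y =>
        exact (hG x y).mpr (h (mem_cp.mp (by exact_mod_cast hx)) (mem_cp.mp (by exact_mod_cast hy))
          (fun h => hxy (by rw [h])))

lemma noCl_cp {G : SimpleGraph V} {G' : SimpleGraph (Option V)}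
    (hG : ∀ a b, G'.Adj (some a) (some b) ↔ G.Adj a b) {X : Finset V} {a : ℕ} :
    NoCl G' a (cp X) ↔ NoCl G a X := by
  constructor
  · intro h T hT hc
    exact h (cp T) (by
      unfold cp
      exact map_subset_map.mpr hT) ((clq_cp hG).mpr hc)
  · intro h T hT hc
    obtain ⟨T0, hT0, rfl⟩ := sub_cp hT
    exact h T0 hT0 ((clq_cp hG).mp hc)

lemma noCl_none {G : SimpleGraph V} {X : Finset V} {k : ℕ} (h : NoCl G k X) :
    NoCl (optG G) (k + 1) (cp X ∪ {none}) := by
  intro T hT hc
  have hsub : T.erase none ⊆ cp X := by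
    intro x hx
    rw [mem_erase] at hx
    rcases mem_union.mp (hT hx.2) with h1 | h1
    · exact h1
    · exact absurd (mem_singleton.mp h1) hx.1
  have hcard : k ≤ (T.erase none).card := by
    have h1 := pred_card_le_card_erase (s := T) (a := none)
    have h2 := hc.card_eq
    omega
  have hcl : (optG G).IsClique ((T.erase none : Finset (Option V)) : Set (Option V)) :=
    hc.isClique.subset (by exact_mod_cast erase_subset _ _)
  obtain ⟨T', hT', hcd⟩ := exists_subset_card_eq hcard
  have h3 : NoCl (optG G) k (cp X) := (noCl_cp (fun a b => optG_some G a b)).mpr h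
  refine h3 T' (hT'.trans hsub) ?_
  rw [SimpleGraph.isNClique_iff]
  exact ⟨hcl.subset (by exact_mod_cast hT'), hcd⟩

lemma nb_cp {G : SimpleGraph V} {G' : SimpleGraph (Option V)}
    (hG : ∀ a b, G'.Adj (some a) (some b) ↔ G.Adj a b) {Y : Finset V} {x : V} :
    nb G' (some x) (cp Y) = cp (nb G x Y) := by
  ext z
  cases z with
  | none =>
    rw [mem_nb]
    exact ⟨fun h => absurd h.1 none_notMem_cp, fun h => absurd h none_notMem_cp⟩
  | some z => rw [mem_nb, mem_cp, mem_cp, mem_nb, hG]

end opt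

theorem win_one {Ls : List (ℝ × ℝ)} {C : ℝ} (hC : 1 ≤ C) (hBd : ∀ a l : ℕ, BdAt Ls C a l)
    {p1 p2 b1 b2 A W A2 phi : ℝ} (hb2 : 0 < b2) (hp1 : p1 < 1) (hA : 0 ≤ A)
    (hp2 : p2 < 1 - phi) (hTB : TBook p1 p2 b1 b2 A W)
    (hD2 : Dom Ls b2 A2 W) : Win b2 (A + A2 + W) 0 phi := by
  set δ : ℝ := min (1 - p1) (1 - phi - p2) / 2 with hδ
  have hδ0 : 0 < δ := by
    rw [hδ]
    have : 0 < min (1 - p1) (1 - phi - p2) := lt_min (by linarith) (by linarith)
    linarith
  have hδ1 : p1 + δ ≤ 1 := by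
    have := min_le_left (1 - p1) (1 - phi - p2)
    rw [hδ] at hδ0 ⊢
    linarith
  have hδ2 : p2 + δ + δ ≤ 1 - phi := by
    have := min_le_right (1 - p1) (1 - phi - p2)
    rw [hδ]; linarith
  obtain ⟨c, hc⟩ := hTB δ hδ0
  refine ⟨c + b2 * Real.log C + A, max 1 (1 / δ), ?_⟩
  intro V _ G k X Y hX hM h1 h2 _ hblue
  have hY1 : (1 : ℝ) ≤ Y.card := (le_max_left _ _).trans hM
  have hYδ : 1 ≤ δ * Y.card := by
    have := (le_max_right 1 (1 / δ)).trans hM
    rw [div_le_iff₀ hδ0] at this
    linarith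
  have hYpos : (0 : ℝ) < Y.card := by linarith
  have hY : Y.Nonempty := by
    rw [← card_pos]
    exact_mod_cast hYpos
  have hZk : ∀ Z ⊆ Y, NoCl G k Z := fun Z hZ => h1.mono (hZ.trans subset_union_right)
  have hun : cp X ∪ cp Y = cp (X ∪ Y) := by
    unfold cp
    rw [map_union]
  have h := hc (Option V) (optG G) (k + 1) k 0 (b2 * Real.log C + A2 * k) (cp X) {none} (cp Y)
    (by rw [← card_pos, card_cp]; exact hX.card_pos) (singleton_nonempty _)
    (by rw [← card_pos, card_cp]; exact hY.card_pos)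
    (noCl_none (h1.mono subset_union_left))
    (by
      rw [hun]
      exact (noCl_cp (fun a b => optG_compl G a b)).mpr h2)
    (by
      intro a _ Z hZY hZ _
      have hc1 : Z.card ≤ 1 := by
        have := card_le_card hZY
        simpa using this
      have hc2 : Z.card = 1 := le_antisymm hc1 hZ.card_pos
      rw [hc2]
      have : 0 ≤ A * (a : ℝ) := by positivity
      simpa using this)
    (by
      intro t _ Z hZY hZ hZt
      obtain ⟨Z0, hZ0, rfl⟩ := sub_cp hZY
      have hZt' : NoCl Gᶜ t Z0 := (noCl_cp (fun a b => optG_compl G a b)).mp hZt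
      have hne : Z0.Nonempty := by
        rw [← card_pos, ← card_cp]
        exact hZ.card_pos
      have := res hC hBd hb2 hD2 G k t Z0 hne (hZk Z0 hZ0) hZt'
      rw [card_cp]
      linarith)
    (by
      intro x hx
      obtain ⟨T, hT, hT2⟩ := sub_cp (singleton_subset_iff.mpr hx)
      have hx' : x ≠ none := by
        rintro rfl
        exact none_notMem_cp hx
      obtain ⟨y, rfl⟩ := Option.ne_none_iff_exists'.mp hx'
      have e : nb (optG G) (some y) {none} = {none} := by
        ext z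
        rw [mem_nb, mem_singleton]
        constructor
        · exact fun h => h.1
        · rintro rfl
          exact ⟨rfl, optG_none G y⟩
      rw [e, card_singleton]
      push_cast
      linarith)
    (by
      intro x hx
      have hx' : x ≠ none := by
        rintro rfl
        exact none_notMem_cp hx
      obtain ⟨y, rfl⟩ := Option.ne_none_iff_exists'.mp hx'
      rw [nb_cp (fun a b => optG_compl G a b), card_cp, card_cp]
      have h3 := hblue y (mem_cp.mp hx)
      have h4 := mul_le_mul_of_nonneg_right hδ2 hYpos.le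
      linarith)
  rw [card_cp, card_cp, card_singleton] at h
  push_cast at h
  simp only [Real.log_one, mul_zero, add_zero] at h
  linarith

/-- the bound for one window in terms of powers of `n` -/
theorem win_card {b S plo phi : ℝ} (hb : 0 < b) (h : Win b S plo phi) {c ε : ℝ} (hc : 1 < c)
    (hε1 : ε < 1) (hS : S < (1 + b) * (1 - ε) * Real.log c) (m : ℕ) (hm : 0 < m) :
    ∃ K : ℕ, ∀ k : ℕ, K ≤ k → ∀ (n : ℕ) (G : SimpleGraph (Fin n)), NoCl G k univ → NoCl Gᶜ k univ →
      c ^ k ≤ n → ∀ Y : Finset (Fin n), (n : ℝ) ^ (1 - ε) ≤ Y.card → ∀ X : Finset (Fin n),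
      (∀ x ∈ X, plo * Y.card - 1 ≤ ((nb G x Y).card : ℝ)) →
      (∀ x ∈ X, (1 - phi) * Y.card - 1 ≤ ((nb Gᶜ x Y).card : ℝ)) →
      (m : ℝ) * X.card ≤ (n : ℝ) ^ (1 - ε) := by
  obtain ⟨c', M, hw⟩ := h
  have hlc : 0 < Real.log c := Real.log_pos hc
  have hm' : (0 : ℝ) < m := by exact_mod_cast hm
  set D : ℝ := (1 + b) * (1 - ε) * Real.log c - S with hD
  have hD0 : 0 < D := by rw [hD]; linarith
  obtain ⟨K1, hK1⟩ := exists_nat_gt ((c' + Real.log m) / D)
  obtain ⟨K2, hK2⟩ := exists_nat_gt (Real.log (max M 1) / ((1 - ε) * Real.log c))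
  refine ⟨max K1 K2, ?_⟩
  intro k hk n G h1 h2 hn Y hY X hred hblue
  have hk1 : K1 ≤ k := (le_max_left _ _).trans hk
  have hk2 : K2 ≤ k := (le_max_right _ _).trans hk
  have hn0 : (0 : ℝ) < n := lt_of_lt_of_le (by positivity) hn
  have hlogn : k * Real.log c ≤ Real.log n := by
    rw [← Real.log_pow]
    exact Real.log_le_log (by positivity) hn
  have hpow0 : 0 < (n : ℝ) ^ (1 - ε) := Real.rpow_pos_of_pos hn0 _
  have hlogpow : Real.log ((n : ℝ) ^ (1 - ε)) = (1 - ε) * Real.log n := Real.log_rpow hn0 _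
  have h1ε : 0 < 1 - ε := by linarith
  have hMY : M ≤ Y.card := by
    refine le_trans (le_max_left M 1) (le_trans ?_ hY)
    have hM0 : (0 : ℝ) < max M 1 := lt_of_lt_of_le one_pos (le_max_right _ _)
    rw [← Real.log_le_log_iff hM0 hpow0, hlogpow]
    rw [div_lt_iff₀ (by positivity)] at hK2
    have h3 : ((K2 : ℕ) : ℝ) * ((1 - ε) * Real.log c) ≤ k * ((1 - ε) * Real.log c) :=
      mul_le_mul_of_nonneg_right (by exact_mod_cast hk2) (by positivity)
    have h4 : (1 - ε) * (k * Real.log c) ≤ (1 - ε) * Real.log n :=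
      mul_le_mul_of_nonneg_left hlogn h1ε.le
    linarith
  rcases X.eq_empty_or_nonempty with hX | hX
  · rw [hX, card_empty]
    push_cast
    rw [mul_zero]
    exact hpow0.le
  have hmain := hw (Fin n) G k X Y hX hMY (h1.mono (subset_univ _)) (h2.mono (subset_univ _))
    hred hblue
  by_contra hcon
  push Not at hcon
  have hXpos : (0 : ℝ) < X.card := by exact_mod_cast hX.card_pos
  have h3 : (1 - ε) * Real.log n ≤ Real.log m + Real.log X.card := by
    rw [← hlogpow, ← Real.log_mul hm'.ne' hXpos.ne']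
    exact Real.log_le_log hpow0 hcon.le
  have h4 : (1 - ε) * Real.log n ≤ Real.log Y.card := by
    rw [← hlogpow]
    exact Real.log_le_log hpow0 hY
  have h5 := mul_le_mul_of_nonneg_left h4 hb.le
  have h6 : (1 + b) * (1 - ε) * (k * Real.log c) ≤ (1 + b) * (1 - ε) * Real.log n :=
    mul_le_mul_of_nonneg_left hlogn (by positivity)
  rw [div_lt_iff₀ hD0] at hK1
  have h7 : ((K1 : ℕ) : ℝ) * D ≤ k * D :=
    mul_le_mul_of_nonneg_right (by exact_mod_cast hk1) hD0.le
  have h8 : (k : ℝ) * D = (1 + b) * (1 - ε) * (k * Real.log c) - S * k := by rw [hD]; ring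
  nlinarith

end Pool.Agent.U416.Bal
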