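import Pool.Agent.U416.Bal.Core

set_option autoImplicit false

/-! # The windows -/

open Finset

namespace Pool.Agent.U416.Bal

open H110R2 W478R Pool.Agent.TH502.RM Pool.Agent.TH428.RM

/-- the family of lines -/
def LsN : List (ℕ × ℕ) := Old ++ newL

/-- one reservoir -/
theorem one_ok {C : ℝ} (hC : 1 ≤ C)
    (hBd : ∀ k l : ℕ, BdAt (LsN.map (rl 1000000000)) C k l) {ci : ℕ} {sw : Bool} {c : CC}
    (hc : pick ccs ci sw = some c) {p1 p2 b1 b2 A W lp1 lth1 lp2 lth2 e1 v1 e2 v2 : ℕ}
    (h : pkchk2 1000000000 8 c p1 p2 b1 b2 A W lp1 lth1 lp2 lth2 e1 v1 e2 v2 = true)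
    {L1 L2 : ℕ × ℕ} {s1 s2 : Bool} {t A2 phi : ℕ}
    (hd : domchk 1000000000 LsN L1 s1 L2 s2 t b2 A2 W = true) (hphi : p2 + phi < 1000000000) :
    Win ((b2 : ℝ) / (1000000000 : ℕ)) ((A : ℝ) / (1000000000 : ℕ) + (A2 : ℝ) / (1000000000 : ℕ)
      + (W : ℝ) / (1000000000 : ℕ)) 0 ((phi : ℝ) / (1000000000 : ℕ)) := by
  obtain ⟨g0, a1, a2, P, dl, hcert, hPK⟩ := pkchk2_sound (by norm_num) (pick_ok ccs_ok hc) h
  have hTB := tbook2 _ _ _ _ _ _ _ _ _ _ _ _ _ _ _ _ hcert hPK
  refine win_one hC hBd hPK.hb2 hPK.hp1' hPK.hA ?_ hTB (domchk_sound (by norm_num) hd)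
  have h2 : (p2 : ℝ) + phi < (1000000000 : ℕ) := by exact_mod_cast hphi
  rw [lt_sub_iff_add_lt, ← add_div, div_lt_one (by norm_num)]
  exact h2

/-- two reservoirs -/
theorem two_ok {C : ℝ} (hC : 1 ≤ C)
    (hBd : ∀ k l : ℕ, BdAt (LsN.map (rl 1000000000)) C k l) {ci : ℕ} {sw : Bool} {c : CC}
    (hc : pick ccs ci sw = some c) {p1 p2 b1 b2 A W lp1 lth1 lp2 lth2 e1 v1 e2 v2 : ℕ}
    (h : pkchk2 1000000000 8 c p1 p2 b1 b2 A W lp1 lth1 lp2 lth2 e1 v1 e2 v2 = true)
    {L1 L2 : ℕ × ℕ} {s1 s2 : Bool} {t A2 plo phi : ℕ} {M1 M2 : ℕ × ℕ} {c1 c2 : Bool} {t' B : ℕ}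
    (hd1 : domchk 1000000000 LsN M1 c1 M2 c2 t' b1 A B = true)
    (hd : domchk 1000000000 LsN L1 s1 L2 s2 t b2 A2 W = true) (hplo : p1 < plo)
    (hphi : p2 + phi < 1000000000) :
    Win ((b1 : ℝ) / (1000000000 : ℕ) + (b2 : ℝ) / (1000000000 : ℕ))
      ((A : ℝ) / (1000000000 : ℕ) + (A2 : ℝ) / (1000000000 : ℕ)
        + (B : ℝ) / (1000000000 : ℕ) + (W : ℝ) / (1000000000 : ℕ))
      ((plo : ℝ) / (1000000000 : ℕ)) ((phi : ℝ) / (1000000000 : ℕ)) := by
  obtain ⟨g0, a1, a2, P, dl, hcert, hPK⟩ := pkchk2_sound (by norm_num) (pick_ok ccs_ok hc) h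
  have hTB := tbook2 _ _ _ _ _ _ _ _ _ _ _ _ _ _ _ _ hcert hPK
  refine win_two hC hBd hPK.hb1 hPK.hb2 ?_ ?_ hTB (domchk_sound (by norm_num) hd1)
    (domchk_sound (by norm_num) hd)
  · apply div_lt_div_of_pos_right _ (by norm_num)
    exact_mod_cast hplo
  · have h2 : (p2 : ℝ) + phi < (1000000000 : ℕ) := by exact_mod_cast hphi
    rw [lt_sub_iff_add_lt, ← add_div, div_lt_one (by norm_num)]
    exact h2

/-- the numerical condition for the exponent `1 - e / 1000` -/
lemma num_ok {S b r cn cd e : ℕ} (hr : expU 1000000000 r cn cd = true) (hcn : 0 < cn) (hcd : 0 < cd)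
    (he : e < 1000) (h : S * 1000000000 * 1000 < (1000000000 + b) * (1000 - e) * r) {S' b' : ℝ}
    (hS : S' = (S : ℝ) / 1000000000) (hb : b' = (b : ℝ) / 1000000000) :
    S' < (1 + b') * (1 - (e : ℝ) / 1000) * Real.log ((cn : ℝ) / cd) := by
  have h1 := expU_sound (by norm_num) hr
  have hc0 : (0 : ℝ) < (cn : ℝ) / cd := by positivity
  have h2 : (r : ℝ) / (1000000000 : ℕ) ≤ Real.log ((cn : ℝ) / cd) := by
    rw [Real.le_log_iff_exp_le hc0]
    exact h1
  have he' : (e : ℝ) < 1000 := by exact_mod_cast he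
  have h3 : (S : ℝ) * 1000000000 * 1000 < (1000000000 + b) * (1000 - e) * r := by
    have h3' : ((S * 1000000000 * 1000 : ℕ) : ℝ) < (((1000000000 + b) * (1000 - e) * r : ℕ) : ℝ) := by
      exact_mod_cast h
    push_cast [Nat.cast_sub he.le] at h3'
    exact h3'
  have hb0 : (0 : ℝ) ≤ b := Nat.cast_nonneg _
  have h4 : (1 + b') * (1 - (e : ℝ) / 1000) * ((r : ℝ) / (1000000000 : ℕ)) ≤
      (1 + b') * (1 - (e : ℝ) / 1000) * Real.log ((cn : ℝ) / cd) := by
    refine mul_le_mul_of_nonneg_left h2 ?_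
    rw [hb]
    have : 0 ≤ 1 - (e : ℝ) / 1000 := by
      rw [sub_nonneg, div_le_one (by norm_num)]
      exact he'.le
    positivity
  refine lt_of_lt_of_le ?_ h4
  rw [hS, hb]
  push_cast
  rw [← sub_pos]
  have e1 : (1 + (b : ℝ) / 1000000000) * (1 - (e : ℝ) / 1000) * ((r : ℝ) / 1000000000)
      - (S : ℝ) / 1000000000
      = ((1000000000 + b) * (1000 - e) * r - S * 1000000000 * 1000)
        / (1000000000 * 1000000000 * 1000) := by
    field_simp
  rw [e1]
  apply div_pos (by linarith) (by norm_num)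

theorem pk0 : pkchk2 1000000000 8 cc1 999999999 899999999 1 2642212929 469158140 1824819326 4 3 105360519 34401430 452964319 635740820 1546434400 213006119 = true := by
  decide +kernel

theorem dm0 : domchk 1000000000 LsN (470431201, 690640510) false (447120136, 726922323) false 999999588 2642212929 1242979377 1824819326 = true := by
  decide +kernel

theorem eu0 : expU 1000000000 993251770 27 10 = true := by
  decide +kernel

theorem win0 : ∃ b S : ℝ, 0 < b ∧ Win b S 0 ((100000000 : ℕ) / (1000000000 : ℕ)) ∧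
    S < (1 + b) * (1 - ((20 : ℕ) : ℝ) / 1000) * Real.log (((27 : ℕ) : ℝ) / (10 : ℕ)) := by
  obtain ⟨C, hC, hBd⟩ := bound
  refine ⟨_, _, ?_, one_ok hC hBd (ci := 0) (sw := false) rfl pk0 dm0 (by norm_num), ?_⟩
  · norm_num
  · exact num_ok (S := 3536956843) (b := 2642212929) eu0 (by norm_num) (by norm_num) (by norm_num)
      (by norm_num) (by norm_num) (by norm_num)

theorem pk1 : pkchk2 1000000000 8 cc1 999999999 899999999 1 2642212929 469158140 1824819326 4 3 105360519 34401430 452964319 635740820 1546434400 213006119 = true := by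
  decide +kernel

theorem dm1 : domchk 1000000000 LsN (470431201, 690640510) false (447120136, 726922323) false 999999588 2642212929 1242979377 1824819326 = true := by
  decide +kernel

theorem eu1 : expU 1000000000 1029619414 14 5 = true := by
  decide +kernel

theorem win1 : ∃ b S : ℝ, 0 < b ∧ Win b S 0 ((100000000 : ℕ) / (1000000000 : ℕ)) ∧
    S < (1 + b) * (1 - ((56 : ℕ) : ℝ) / 1000) * Real.log (((14 : ℕ) : ℝ) / (5 : ℕ)) := by
  obtain ⟨C, hC, hBd⟩ := bound
  refine ⟨_, _, ?_, one_ok hC hBd (ci := 0) (sw := false) rfl pk1 dm1 (by norm_num), ?_⟩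
  · norm_num
  · exact num_ok (S := 3536956843) (b := 2642212929) eu1 (by norm_num) (by norm_num) (by norm_num)
      (by norm_num) (by norm_num) (by norm_num)

theorem pk2 : pkchk2 1000000000 8 cc1 999999999 849999999 1 2882542850 489032471 1990800902 4 3 162518933 54098183 461171180 630544734 1522333113 218202205 = true := by
  decide +kernel

theorem dm2 : domchk 1000000000 LsN (470431201, 690640510) false (447120136, 726922323) false 999999643 2882542850 1356038071 1990800902 = true := by
  decide +kernel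

theorem eu2 : expU 1000000000 1098612285 3 1 = true := by
  decide +kernel

theorem win2 : ∃ b S : ℝ, 0 < b ∧ Win b S 0 ((150000000 : ℕ) / (1000000000 : ℕ)) ∧
    S < (1 + b) * (1 - ((100 : ℕ) : ℝ) / 1000) * Real.log (((3 : ℕ) : ℝ) / (1 : ℕ)) := by
  obtain ⟨C, hC, hBd⟩ := bound
  refine ⟨_, _, ?_, one_ok hC hBd (ci := 0) (sw := false) rfl pk2 dm2 (by norm_num), ?_⟩
  · norm_num
  · exact num_ok (S := 3835871444) (b := 2882542850) eu2 (by norm_num) (by norm_num) (by norm_num)
      (by norm_num) (by norm_num) (by norm_num)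

theorem pk3 : pkchk2 1000000000 8 cc1 999999999 799999999 1 2969428532 510813324 2158543925 4 3 223143555 75802966 470471062 624707925 1495935086 224039014 = true := by
  decide +kernel

theorem dm3 : domchk 1000000000 LsN (447120136, 726922323) false (438463483, 741113557) false 999999156 2969428532 1327691268 2158543925 = true := by
  decide +kernel

theorem eu3 : expU 1000000000 1131402108 31 10 = true := by
  decide +kernel

theorem win3 : ∃ b S : ℝ, 0 < b ∧ Win b S 0 ((200000000 : ℕ) / (1000000000 : ℕ)) ∧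
    S < (1 + b) * (1 - ((105 : ℕ) : ℝ) / 1000) * Real.log (((31 : ℕ) : ℝ) / (10 : ℕ)) := by
  obtain ⟨C, hC, hBd⟩ := bound
  refine ⟨_, _, ?_, one_ok hC hBd (ci := 0) (sw := false) rfl pk3 dm3 (by norm_num), ?_⟩
  · norm_num
  · exact num_ok (S := 3997048517) (b := 2969428532) eu3 (by norm_num) (by norm_num) (by norm_num)
      (by norm_num) (by norm_num) (by norm_num)

theorem pk4 : pkchk2 1000000000 8 cc1 999999999 749999999 1 3340435668 540944004 2428237295 4 3 287682076 99845338 480960775 618189168 1467253827 230557771 = true := by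
  decide +kernel

theorem dm4 : domchk 1000000000 LsN (447120136, 726922323) false (438463483, 741113557) false 999999226 3340435668 1493576028 2428237295 = true := by
  decide +kernel

theorem eu4 : expU 1000000000 1029619414 14 5 = true := by
  decide +kernel

theorem win4 : ∃ b S : ℝ, 0 < b ∧ Win b S 0 ((250000000 : ℕ) / (1000000000 : ℕ)) ∧
    S < (1 + b) * (1 - ((1 : ℕ) : ℝ) / 1000) * Real.log (((14 : ℕ) : ℝ) / (5 : ℕ)) := by
  obtain ⟨C, hC, hBd⟩ := bound
  refine ⟨_, _, ?_, one_ok hC hBd (ci := 0) (sw := false) rfl pk4 dm4 (by norm_num), ?_⟩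
  · norm_num
  · exact num_ok (S := 4462757327) (b := 3340435668) eu4 (by norm_num) (by norm_num) (by norm_num)
      (by norm_num) (by norm_num) (by norm_num)

theorem pk5 : pkchk2 1000000000 8 cc1 999999999 624999999 1 5090595307 675655189 3772709242 4 3 470003633 173112621 515509422 597196295 1380110953 251550644 = true := by
  decide +kernel

theorem dm5 : domchk 1000000000 LsN (438463483, 741113557) false (405808216, 797659475) false 999999842 5090595307 2232040123 3772709242 = true := by
  decide +kernel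

theorem eu5 : expU 1000000000 1098612285 3 1 = true := by
  decide +kernel

theorem win5 : ∃ b S : ℝ, 0 < b ∧ Win b S 0 ((375000000 : ℕ) / (1000000000 : ℕ)) ∧
    S < (1 + b) * (1 - ((1 : ℕ) : ℝ) / 1000) * Real.log (((3 : ℕ) : ℝ) / (1 : ℕ)) := by
  obtain ⟨C, hC, hBd⟩ := bound
  refine ⟨_, _, ?_, one_ok hC hBd (ci := 0) (sw := false) rfl pk5 dm5 (by norm_num), ?_⟩
  · norm_num
  · exact num_ok (S := 6680404554) (b := 5090595307) eu5 (by norm_num) (by norm_num) (by norm_num)
      (by norm_num) (by norm_num) (by norm_num)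

theorem pk6 : pkchk2 1000000000 8 cc2 999999999 579999999 1 10321808601 656455335 7503153168 4 3 544727180 166390738 415360568 660102229 1880583476 152501102 = true := by
  decide +kernel

theorem dm6 : domchk 1000000000 LsN (447120136, 726922323) false (438463483, 741113557) false 999999508 10321808601 4615088422 7503153168 = true := by
  decide +kernel

theorem eu6 : expU 1000000000 1131402108 31 10 = true := by
  decide +kernel

theorem win6 : ∃ b S : ℝ, 0 < b ∧ Win b S 0 ((420000000 : ℕ) / (1000000000 : ℕ)) ∧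
    S < (1 + b) * (1 - ((1 : ℕ) : ℝ) / 1000) * Real.log (((31 : ℕ) : ℝ) / (10 : ℕ)) := by
  obtain ⟨C, hC, hBd⟩ := bound
  refine ⟨_, _, ?_, one_ok hC hBd (ci := 1) (sw := false) rfl pk6 dm6 (by norm_num), ?_⟩
  · norm_num
  · exact num_ok (S := 12774696925) (b := 10321808601) eu6 (by norm_num) (by norm_num) (by norm_num)
      (by norm_num) (by norm_num) (by norm_num)

theorem pk7 : pkchk2 1000000000 8 cc1 419999999 569999999 665382389 5324042678 1381926046 4246773133 867500573 361164853 562118922 213199540 597267808 550313148 1209207186 298433791 = true := by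
  decide +kernel

theorem dm7 : domchk 1000000000 LsN (405808216, 797659475) false (367038184, 873308318) false 999999896 5324042678 2160540240 4246773133 = true := by
  decide +kernel

theorem dn7 : domchk 1000000000 LsN (98909799, 2076890000) true (91175559, 2157455000) true 999999704 665382389 1381926046 65812837 = true := by
  decide +kernel

theorem eu7 : expU 1000000000 1131402108 31 10 = true := by
  decide +kernel

theorem win7 : ∃ b S : ℝ, 0 < b ∧
    Win b S ((420000000 : ℕ) / (1000000000 : ℕ)) ((430000000 : ℕ) / (1000000000 : ℕ)) ∧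
    S < (1 + b) * (1 - ((1 : ℕ) : ℝ) / 1000) * Real.log (((31 : ℕ) : ℝ) / (10 : ℕ)) := by
  obtain ⟨C, hC, hBd⟩ := bound
  refine ⟨_, _, ?_, two_ok hC hBd (ci := 0) (sw := false) rfl pk7 dn7 dm7 (by norm_num)
    (by norm_num), ?_⟩
  · norm_num
  · exact num_ok (S := 7855052256) (b := 5989425067) eu7 (by norm_num) (by norm_num) (by norm_num)
      (by norm_num) (by norm_num) (by norm_num)

theorem pk8 : pkchk2 1000000000 8 cc1 429999999 559999999 768983154 4163947745 1435441645 3636410245 843970075 348935775 579818500 221141552 617974192 539035317 1172113675 309711622 = true := by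
  decide +kernel

theorem dm8 : domchk 1000000000 LsN (367038184, 873308318) false (343717149, 921893806) false 999999796 4163947745 1528327799 3636410245 = true := by
  decide +kernel

theorem dn8 : domchk 1000000000 LsN (122634319, 1866675000) true (116470777, 1915592000) true 999999593 768983154 1435441645 94303724 = true := by
  decide +kernel

theorem eu8 : expU 1000000000 1131402108 31 10 = true := by
  decide +kernel

theorem win8 : ∃ b S : ℝ, 0 < b ∧
    Win b S ((430000000 : ℕ) / (1000000000 : ℕ)) ((440000000 : ℕ) / (1000000000 : ℕ)) ∧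
    S < (1 + b) * (1 - ((1 : ℕ) : ℝ) / 1000) * Real.log (((31 : ℕ) : ℝ) / (10 : ℕ)) := by
  obtain ⟨C, hC, hBd⟩ := bound
  refine ⟨_, _, ?_, two_ok hC hBd (ci := 0) (sw := false) rfl pk8 dn8 dm8 (by norm_num)
    (by norm_num), ?_⟩
  · norm_num
  · exact num_ok (S := 6694483413) (b := 4932930899) eu8 (by norm_num) (by norm_num) (by norm_num)
      (by norm_num) (by norm_num) (by norm_num)

end Pool.Agent.U416.Bal
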