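import Pool.Agent.U416.Bal.Main

set_option autoImplicit false

/-! # Balanced colourings contain all small colourings -/

open Finset

namespace Pool.Agent.U416.Bal

open H110R2 W478R

theorem emb {V : Type} [DecidableEq V] [Fintype V] (G : SimpleGraph V) {p N R : ℝ} (hp0 : 0 < p)
    (hp : p ≤ 1 / 2) (hN : 0 ≤ N) (hNR : N ≤ R)
    (hbal : ∀ Y : Finset V, N ≤ Y.card → ∀ X : Finset V,
      (∀ x ∈ X, ¬ (p * Y.card ≤ ((nb G x Y).card : ℝ) ∧
        ((nb G x Y).card : ℝ) ≤ (1 - p) * Y.card)) → (X.card : ℝ) ≤ N) :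
    ∀ (t : ℕ) (H : SimpleGraph (Fin t)) (W : Fin t → Finset V), (t : ℝ) * N < R →
      (∀ j, (R + 2) / p ^ t - 2 ≤ ((W j).card : ℝ)) →
      ∃ f : Fin t → V, (∀ j, f j ∈ W j) ∧ ∀ i j : Fin t, i < j →
        (H.Adj i j → G.Adj (f i) (f j)) ∧ (¬ H.Adj i j → Gᶜ.Adj (f i) (f j)) := by
  classical
  have hbad : ∀ Y : Finset V, N ≤ Y.card →
      (((univ : Finset V).filter fun x => ¬ (p * Y.card ≤ ((nb G x Y).card : ℝ) ∧
        ((nb G x Y).card : ℝ) ≤ (1 - p) * Y.card)).card : ℝ) ≤ N := by
    intro Y hY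
    exact hbal Y hY _ (fun x hx => (mem_filter.mp hx).2)
  intro t
  induction t with
  | zero =>
    intro H W _ _
    exact ⟨fun i => i.elim0, fun i => i.elim0, fun i => i.elim0⟩
  | succ t ih =>
    intro H W hR hW
    have hR0 : 0 ≤ R := hN.trans hNR
    have hp1 : p ≤ 1 := by linarith
    have hpt : 0 < p ^ t := by positivity
    have hpt1 : 0 < p ^ (t + 1) := by positivity
    have hge : ∀ j, R ≤ ((W j).card : ℝ) := by
      intro j
      refine le_trans ?_ (hW j)
      have h1 : p ^ (t + 1) ≤ 1 := pow_le_one₀ hp0.le hp1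
      have h2 : R + 2 ≤ (R + 2) / p ^ (t + 1) := by
        rw [le_div_iff₀ hpt1]
        nlinarith
      linarith
    -- choose the first vertex
    set Bad : Finset V := (univ : Finset (Fin t)).biUnion fun i =>
      (univ : Finset V).filter fun x => ¬ (p * (W i.succ).card ≤ ((nb G x (W i.succ)).card : ℝ) ∧
        ((nb G x (W i.succ)).card : ℝ) ≤ (1 - p) * (W i.succ).card) with hBad
    have hBc : (Bad.card : ℝ) ≤ t * N := by
      have h1 : Bad.card ≤ ∑ i : Fin t, ((univ : Finset V).filter fun x =>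
        ¬ (p * (W i.succ).card ≤ ((nb G x (W i.succ)).card : ℝ) ∧
        ((nb G x (W i.succ)).card : ℝ) ≤ (1 - p) * (W i.succ).card)).card := card_biUnion_le
      have h2 : ((∑ i : Fin t, ((univ : Finset V).filter fun x =>
        ¬ (p * (W i.succ).card ≤ ((nb G x (W i.succ)).card : ℝ) ∧
        ((nb G x (W i.succ)).card : ℝ) ≤ (1 - p) * (W i.succ).card)).card : ℕ) : ℝ) ≤
          ∑ _i : Fin t, N := by
        push_cast
        exact sum_le_sum fun i _ => hbad _ (hNR.trans (hge i.succ))
      rw [sum_const, card_univ, Fintype.card_fin, nsmul_eq_mul] at h2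
      exact le_trans (by exact_mod_cast h1) h2
    have hex : ∃ v ∈ W 0, v ∉ Bad := by
      by_contra hcon
      push Not at hcon
      have h1 := card_le_card (show W 0 ⊆ Bad from hcon)
      have h2 : ((W 0).card : ℝ) ≤ Bad.card := by exact_mod_cast h1
      have h3 := hge 0
      push_cast at hR
      nlinarith
    obtain ⟨v, hv, hvB⟩ := hex
    have hgood : ∀ i : Fin t, p * (W i.succ).card ≤ ((nb G v (W i.succ)).card : ℝ) ∧
        ((nb G v (W i.succ)).card : ℝ) ≤ (1 - p) * (W i.succ).card := by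
      intro i
      by_contra hc
      exact hvB (mem_biUnion.mpr ⟨i, mem_univ _, mem_filter.mpr ⟨mem_univ _, hc⟩⟩)
    set W' : Fin t → Finset V := fun i =>
      if H.Adj 0 i.succ then nb G v (W i.succ) else nb Gᶜ v (W i.succ) with hW'
    have hW'c : ∀ i, (R + 2) / p ^ t - 2 ≤ ((W' i).card : ℝ) := by
      intro i
      have h1 := hW i.succ
      have h2 : p * ((R + 2) / p ^ (t + 1) - 2) = (R + 2) / p ^ t - 2 * p := by
        rw [pow_succ]
        field_simp
      have h3 := mul_le_mul_of_nonneg_left h1 hp0.le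
      rw [h2] at h3
      have h4 : p * ((W i.succ).card : ℝ) - 1 ≤ ((W' i).card : ℝ) := by
        rw [hW']
        dsimp only
        split_ifs
        · have := (hgood i).1
          linarith
        · have h5 := (hgood i).2
          have h6 : ((W i.succ).card : ℝ) ≤
              (nb G v (W i.succ)).card + (nb Gᶜ v (W i.succ)).card + 1 := by
            have h7 : W i.succ ⊆ insert v (nb G v (W i.succ) ∪ nb Gᶜ v (W i.succ)) := by
              intro y hy
              by_cases hyx : y = v
              · rw [hyx]; exact mem_insert_self _ _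
              · refine mem_insert_of_mem ?_
                rw [mem_union, mem_nb, mem_nb, SimpleGraph.compl_adj]
                by_cases ha : G.Adj v y
                · exact Or.inl ⟨hy, ha⟩
                · exact Or.inr ⟨hy, fun h => hyx h.symm, ha⟩
            have h8 := card_le_card h7
            have h9 := card_insert_le v (nb G v (W i.succ) ∪ nb Gᶜ v (W i.succ))
            have h10 := card_union_le (nb G v (W i.succ)) (nb Gᶜ v (W i.succ))
            exact_mod_cast (by omega : (W i.succ).card ≤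
              (nb G v (W i.succ)).card + (nb Gᶜ v (W i.succ)).card + 1)
          linarith
      linarith
    obtain ⟨f, hf1, hf2⟩ := ih (H.comap Fin.succ) W' (by push_cast at hR; nlinarith) hW'c
    have hfW : ∀ i, f i ∈ W i.succ ∧ (H.Adj 0 i.succ → G.Adj v (f i)) ∧
        (¬ H.Adj 0 i.succ → Gᶜ.Adj v (f i)) := by
      intro i
      have h1 := hf1 i
      rw [hW'] at h1
      dsimp only at h1
      split_ifs at h1 with h2
      · exact ⟨(mem_nb.mp h1).1, fun _ => (mem_nb.mp h1).2, fun h => absurd h2 h⟩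
      · exact ⟨(mem_nb.mp h1).1, fun h => absurd h h2, fun _ => (mem_nb.mp h1).2⟩
    refine ⟨Fin.cons v f, ?_, ?_⟩
    · intro j
      refine Fin.cases ?_ (fun i => ?_) j
      · rw [Fin.cons_zero]; exact hv
      · rw [Fin.cons_succ]; exact (hfW i).1
    · intro i j hij
      obtain ⟨j', rfl⟩ := Fin.exists_succ_eq_of_ne_zero (Fin.pos_iff_ne_zero.mp (lt_of_le_of_lt (Fin.zero_le i) hij))
      revert hij
      refine Fin.cases ?_ (fun i' => ?_) i
      · intro _
        rw [Fin.cons_zero, Fin.cons_succ]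
        exact (hfW j').2
      · intro hij
        rw [Fin.cons_succ, Fin.cons_succ]
        have := hf2 i' j' (Fin.succ_lt_succ_iff.mp hij)
        rw [SimpleGraph.comap_adj] at this
        exact this

theorem emb_graph {n t : ℕ} {G : SimpleGraph (Fin n)} {H : SimpleGraph (Fin t)} {f : Fin t → Fin n}
    (h : ∀ i j : Fin t, i < j →
        (H.Adj i j → G.Adj (f i) (f j)) ∧ (¬ H.Adj i j → Gᶜ.Adj (f i) (f j))) :
    Nonempty (H ↪g G) := by
  have hne : ∀ i j : Fin t, i < j → f i ≠ f j := by
    intro i j hij he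
    by_cases ha : H.Adj i j
    · have := (h i j hij).1 ha
      rw [he] at this
      exact G.irrefl this
    · have := (h i j hij).2 ha
      rw [he] at this
      exact Gᶜ.irrefl this
  have hiff : ∀ i j : Fin t, i < j → (G.Adj (f i) (f j) ↔ H.Adj i j) := by
    intro i j hij
    constructor
    · intro hG
      by_contra ha
      exact ((h i j hij).2 ha).2 hG
    · exact (h i j hij).1
  refine ⟨⟨⟨f, ?_⟩, ?_⟩⟩
  · intro i j he
    rcases lt_trichotomy i j with h1 | h1 | h1
    · exact absurd he (hne i j h1)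
    · exact h1
    · exact absurd he.symm (hne j i h1)
  · intro i j
    show G.Adj (f i) (f j) ↔ H.Adj i j
    rcases lt_trichotomy i j with h1 | h1 | h1
    · exact hiff i j h1
    · rw [h1]
      exact ⟨fun h => absurd h (G.irrefl), fun h => absurd h (H.irrefl)⟩
    · rw [G.adj_comm, H.adj_comm]
      exact hiff j i h1

theorem universal {c ε p : ℝ} (h : Light c ε 0 p) (hc : 1 < c) (hε0 : 0 < ε) (hε1 : ε ≤ 1)
    (hp0 : 0 < p) (hp : p ≤ 1 / 2) {q : ℕ} (hq : Real.log (1 / p) < q * (ε * Real.log c)) :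
    ∃ K : ℕ, ∀ k : ℕ, K ≤ k → ∀ (n : ℕ) (G : SimpleGraph (Fin n)), NoCl G k univ →
      NoCl Gᶜ k univ → c ^ k ≤ n → ∀ t : ℕ, q * t ≤ k → ∀ H : SimpleGraph (Fin t),
      Nonempty (H ↪g G) := by
  obtain ⟨K, hK⟩ := both h
  have hlp : 0 ≤ Real.log (1 / p) := Real.log_nonneg (by
    rw [le_div_iff₀ hp0]; linarith)
  have hq0 : (0 : ℝ) < q := by
    by_contra hcon
    have : (q : ℝ) = 0 := le_antisymm (not_lt.mp hcon) (Nat.cast_nonneg _)
    rw [this, zero_mul] at hq
    linarith
  set δ : ℝ := ε * Real.log c - Real.log (1 / p) / q with hδ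
  have hδ0 : 0 < δ := by
    rw [hδ, sub_pos, div_lt_iff₀ hq0]
    linarith
  obtain ⟨K', hK'⟩ := exists_nat_gt (8 / δ ^ 2)
  refine ⟨max (max K K') 1, fun k hk n G h1 h2 hn t ht H => ?_⟩
  have hkK : K ≤ k := ((le_max_left _ _).trans (le_max_left _ _)).trans hk
  have hkK' : K' ≤ k := ((le_max_right _ _).trans (le_max_left _ _)).trans hk
  have hk1 : 1 ≤ k := (le_max_right _ _).trans hk
  have hk1' : (1 : ℝ) ≤ k := by exact_mod_cast hk1
  have hn1 : (1 : ℝ) ≤ n := le_trans (one_le_pow₀ hc.le) hn
  have hn0 : (0 : ℝ) < n := by linarith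
  set N : ℝ := (n : ℝ) ^ (1 - ε) with hN
  have hN0 : 0 < N := Real.rpow_pos_of_pos hn0 _
  have hq1 : 1 ≤ q := by
    have : 0 < q := by exact_mod_cast hq0
    omega
  have htk : (t : ℝ) ≤ k := by
    have : t ≤ k := le_trans (Nat.le_mul_of_pos_left t hq1) ht
    exact_mod_cast this
  have htq : (q : ℝ) * t ≤ k := by exact_mod_cast ht
  -- the main inequality
  have hmain : (k + 1) * N + 2 * N ≤ n * p ^ t := by
    have e1 : (n : ℝ) = N * (n : ℝ) ^ ε := by
      rw [hN, ← Real.rpow_add hn0, sub_add_cancel, Real.rpow_one]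
    have e2 : Real.exp (ε * (k * Real.log c)) ≤ (n : ℝ) ^ ε := by
      rw [Real.rpow_def_of_pos hn0]
      apply Real.exp_le_exp.mpr
      have : k * Real.log c ≤ Real.log n := by
        rw [← Real.log_pow]
        exact Real.log_le_log (by positivity) hn
      nlinarith
    have e3 : Real.exp (-(k / q * Real.log (1 / p))) ≤ p ^ t := by
      have : p ^ t = Real.exp (-(t * Real.log (1 / p))) := by
        rw [one_div, Real.log_inv, mul_neg, neg_neg, ← Real.log_pow, Real.exp_log (by positivity)]
      rw [this]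
      apply Real.exp_le_exp.mpr
      have h3 : (t : ℝ) ≤ k / q := by
        rw [le_div_iff₀ hq0]; linarith
      have := mul_le_mul_of_nonneg_right h3 hlp
      linarith
    have e4 : Real.exp (δ * k) ≤ (n : ℝ) ^ ε * p ^ t := by
      have : Real.exp (δ * k) = Real.exp (ε * (k * Real.log c)) *
          Real.exp (-(k / q * Real.log (1 / p))) := by
        rw [← Real.exp_add]
        congr 1
        rw [hδ]
        field_simp
        ring
      rw [this]
      exact mul_le_mul e2 e3 (Real.exp_pos _).le (by positivity)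
    have e5 : (k : ℝ) + 3 ≤ Real.exp (δ * k) := by
      have h3 := Real.quadratic_le_exp_of_nonneg (x := δ * k) (by positivity)
      have h4 : 8 / δ ^ 2 < k := lt_of_lt_of_le hK' (by exact_mod_cast hkK')
      rw [div_lt_iff₀ (by positivity)] at h4
      have h5 : 4 * (k : ℝ) ≤ (δ * k) ^ 2 / 2 := by nlinarith
      have h6 : 0 ≤ δ * k := by positivity
      linarith
    calc (k + 1) * N + 2 * N = N * (k + 3) := by ring
      _ ≤ N * Real.exp (δ * k) := mul_le_mul_of_nonneg_left e5 hN0.le
      _ ≤ N * ((n : ℝ) ^ ε * p ^ t) := mul_le_mul_of_nonneg_left e4 hN0.le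
      _ = n * p ^ t := by rw [← mul_assoc, ← e1]
  have hN1 : 1 ≤ N := Real.one_le_rpow hn1 (by linarith)
  obtain ⟨f, -, hf⟩ := emb G (p := p) (N := N) (R := (k + 1) * N) hp0 hp hN0.le
    (by nlinarith) (fun Y hY X hX => hK k hkK n G h1 h2 hn Y hY X hX) t H (fun _ => univ)
    (by nlinarith)
    (by
      intro j
      rw [card_univ, Fintype.card_fin]
      have hpt : 0 < p ^ t := by positivity
      have : ((k + 1) * N + 2) / p ^ t ≤ n := by
        rw [div_le_iff₀ hpt]
        nlinarith
      linarith)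
  exact emb_graph hf

end Pool.Agent.U416.Bal
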