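import Pool.Agent.U416.Bal.Data

set_option autoImplicit false

/-! # Assembly: vertices of small degree into a large set -/

open Finset

namespace Pool.Agent.U416.Bal

open H110R2 W478R

/-- few vertices have degree between `plo |Y|` and `phi |Y|` -/
def Light (c ε plo phi : ℝ) : Prop :=
  ∀ m : ℕ, 0 < m → ∃ K : ℕ, ∀ k : ℕ, K ≤ k → ∀ (n : ℕ) (G : SimpleGraph (Fin n)),
    NoCl G k univ → NoCl Gᶜ k univ → c ^ k ≤ n → ∀ Y : Finset (Fin n),
    (n : ℝ) ^ (1 - ε) ≤ Y.card → ∀ X : Finset (Fin n),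
    (∀ x ∈ X, plo * Y.card ≤ ((nb G x Y).card : ℝ) ∧ ((nb G x Y).card : ℝ) < phi * Y.card) →
    (m : ℝ) * X.card ≤ (n : ℝ) ^ (1 - ε)

lemma card_le_nb {n : ℕ} (G : SimpleGraph (Fin n)) (x : Fin n) (Y : Finset (Fin n)) :
    Y.card ≤ (nb G x Y).card + (nb Gᶜ x Y).card + 1 := by
  classical
  have h : Y ⊆ insert x (nb G x Y ∪ nb Gᶜ x Y) := by
    intro y hy
    by_cases hyx : y = x
    · rw [hyx]; exact mem_insert_self _ _
    · refine mem_insert_of_mem ?_
      rw [mem_union, mem_nb, mem_nb, SimpleGraph.compl_adj]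
      by_cases ha : G.Adj x y
      · exact Or.inl ⟨hy, ha⟩
      · exact Or.inr ⟨hy, fun h => hyx h.symm, ha⟩
  have h1 := card_le_card h
  have h2 := card_insert_le x (nb G x Y ∪ nb Gᶜ x Y)
  have h3 := card_union_le (nb G x Y) (nb Gᶜ x Y)
  omega

theorem light_of_win {b S plo phi c ε : ℝ} (hb : 0 < b) (h : Win b S plo phi) (hc : 1 < c)
    (hε : ε < 1) (hS : S < (1 + b) * (1 - ε) * Real.log c) : Light c ε plo phi := by
  intro m hm
  obtain ⟨K, hK⟩ := win_card hb h hc hε hS m hm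
  refine ⟨K, fun k hk n G h1 h2 hn Y hY X hX => hK k hk n G h1 h2 hn Y hY X ?_ ?_⟩
  · intro x hx
    have := (hX x hx).1
    linarith
  · intro x hx
    have h3 := (hX x hx).2
    have h4 : (Y.card : ℝ) ≤ (nb G x Y).card + (nb Gᶜ x Y).card + 1 := by
      exact_mod_cast card_le_nb G x Y
    linarith

theorem Light.add {c ε p0 p1 p2 : ℝ} (h : Light c ε p0 p1) (h' : Light c ε p1 p2) :
    Light c ε p0 p2 := by
  classical
  intro m hm
  obtain ⟨K, hK⟩ := h (2 * m) (by omega)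
  obtain ⟨K', hK'⟩ := h' (2 * m) (by omega)
  refine ⟨max K K', fun k hk n G h1 h2 hn Y hY X hX => ?_⟩
  have a1 := hK k ((le_max_left _ _).trans hk) n G h1 h2 hn Y hY
    (X.filter fun x => ((nb G x Y).card : ℝ) < p1 * Y.card)
    (fun x hx => ⟨(hX x (mem_filter.mp hx).1).1, (mem_filter.mp hx).2⟩)
  have a2 := hK' k ((le_max_right _ _).trans hk) n G h1 h2 hn Y hY
    (X.filter fun x => ¬ ((nb G x Y).card : ℝ) < p1 * Y.card)
    (fun x hx => ⟨not_lt.mp (mem_filter.mp hx).2, (hX x (mem_filter.mp hx).1).2⟩)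
  have a3 : ((X.filter fun x => ((nb G x Y).card : ℝ) < p1 * Y.card).card : ℝ) +
      (X.filter fun x => ¬ ((nb G x Y).card : ℝ) < p1 * Y.card).card = X.card := by
    exact_mod_cast card_filter_add_card_filter_not (s := X)
      (fun x => ((nb G x Y).card : ℝ) < p1 * Y.card)
  push_cast at a1 a2
  rw [← a3]
  linarith

theorem light0 : Light 2.7 0.02 0 (1 / 10) := by
  obtain ⟨b, S, hb, hw, hS⟩ := win0
  have e : (((27 : ℕ) : ℝ) / (10 : ℕ)) = 2.7 := by norm_num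
  have e' : (((100000000 : ℕ) : ℝ) / (1000000000 : ℕ)) = 1 / 10 := by norm_num
  have e'' : (((20 : ℕ) : ℝ) / 1000) = 0.02 := by norm_num
  rw [e, e''] at hS
  rw [e'] at hw
  exact light_of_win hb hw (by norm_num) (by norm_num) hS

theorem light1 : Light 2.8 0.056 0 (1 / 10) := by
  obtain ⟨b, S, hb, hw, hS⟩ := win1
  have e : (((14 : ℕ) : ℝ) / (5 : ℕ)) = 2.8 := by norm_num
  have e' : (((100000000 : ℕ) : ℝ) / (1000000000 : ℕ)) = 1 / 10 := by norm_num
  have e'' : (((56 : ℕ) : ℝ) / 1000) = 0.056 := by norm_num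
  rw [e, e''] at hS
  rw [e'] at hw
  exact light_of_win hb hw (by norm_num) (by norm_num) hS

theorem light2 : Light 3 0.1 0 (3 / 20) := by
  obtain ⟨b, S, hb, hw, hS⟩ := win2
  have e : (((3 : ℕ) : ℝ) / (1 : ℕ)) = 3 := by norm_num
  have e' : (((150000000 : ℕ) : ℝ) / (1000000000 : ℕ)) = 3 / 20 := by norm_num
  have e'' : (((100 : ℕ) : ℝ) / 1000) = 0.1 := by norm_num
  rw [e, e''] at hS
  rw [e'] at hw
  exact light_of_win hb hw (by norm_num) (by norm_num) hS

theorem light3 : Light 3.1 0.105 0 (1 / 5) := by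
  obtain ⟨b, S, hb, hw, hS⟩ := win3
  have e : (((31 : ℕ) : ℝ) / (10 : ℕ)) = 3.1 := by norm_num
  have e' : (((200000000 : ℕ) : ℝ) / (1000000000 : ℕ)) = 1 / 5 := by norm_num
  have e'' : (((105 : ℕ) : ℝ) / 1000) = 0.105 := by norm_num
  rw [e, e''] at hS
  rw [e'] at hw
  exact light_of_win hb hw (by norm_num) (by norm_num) hS

theorem light4 : Light 2.8 0.001 0 (1 / 4) := by
  obtain ⟨b, S, hb, hw, hS⟩ := win4
  have e : (((14 : ℕ) : ℝ) / (5 : ℕ)) = 2.8 := by norm_num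
  have e' : (((250000000 : ℕ) : ℝ) / (1000000000 : ℕ)) = 1 / 4 := by norm_num
  have e'' : (((1 : ℕ) : ℝ) / 1000) = 0.001 := by norm_num
  rw [e, e''] at hS
  rw [e'] at hw
  exact light_of_win hb hw (by norm_num) (by norm_num) hS

theorem light5 : Light 3 0.001 0 (3 / 8) := by
  obtain ⟨b, S, hb, hw, hS⟩ := win5
  have e : (((3 : ℕ) : ℝ) / (1 : ℕ)) = 3 := by norm_num
  have e' : (((375000000 : ℕ) : ℝ) / (1000000000 : ℕ)) = 3 / 8 := by norm_num
  have e'' : (((1 : ℕ) : ℝ) / 1000) = 0.001 := by norm_num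
  rw [e, e''] at hS
  rw [e'] at hw
  exact light_of_win hb hw (by norm_num) (by norm_num) hS

theorem light6 : Light 3.1 0.001 0 (11 / 25) := by
  have e : (((31 : ℕ) : ℝ) / (10 : ℕ)) = 3.1 := by norm_num
  have e0 : (((1 : ℕ) : ℝ) / 1000) = 0.001 := by norm_num
  have e1 : (((420000000 : ℕ) : ℝ) / (1000000000 : ℕ)) = 21 / 50 := by norm_num
  have e2 : (((430000000 : ℕ) : ℝ) / (1000000000 : ℕ)) = 43 / 100 := by norm_num
  have e3 : (((440000000 : ℕ) : ℝ) / (1000000000 : ℕ)) = 11 / 25 := by norm_num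
  obtain ⟨b, S, hb, hw, hS⟩ := win6
  obtain ⟨b', S', hb', hw', hS'⟩ := win7
  obtain ⟨b'', S'', hb'', hw'', hS''⟩ := win8
  rw [e, e0] at hS hS' hS''
  rw [e1] at hw hw'
  rw [e2] at hw' hw''
  rw [e3] at hw''
  exact ((light_of_win hb hw (by norm_num) (by norm_num) hS).add
    (light_of_win hb' hw' (by norm_num) (by norm_num) hS')).add
    (light_of_win hb'' hw'' (by norm_num) (by norm_num) hS'')

/-- the statement for both colours -/
theorem both {c ε p : ℝ} (h : Light c ε 0 p) : ∃ K : ℕ, ∀ k : ℕ, K ≤ k → ∀ (n : ℕ)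
    (G : SimpleGraph (Fin n)), NoCl G k univ → NoCl Gᶜ k univ → c ^ k ≤ n → ∀ Y : Finset (Fin n),
    (n : ℝ) ^ (1 - ε) ≤ Y.card → ∀ X : Finset (Fin n),
    (∀ x ∈ X, ¬ (p * Y.card ≤ ((nb G x Y).card : ℝ) ∧ ((nb G x Y).card : ℝ) ≤ (1 - p) * Y.card)) →
    (X.card : ℝ) ≤ (n : ℝ) ^ (1 - ε) := by
  classical
  obtain ⟨K, hK⟩ := h 2 (by norm_num)
  refine ⟨K, fun k hk n G h1 h2 hn Y hY X hX => ?_⟩
  have a1 := hK k hk n G h1 h2 hn Y hY
    (X.filter fun x => ((nb G x Y).card : ℝ) < p * Y.card)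
    (fun x hx => ⟨by simp, (mem_filter.mp hx).2⟩)
  have a2 := hK k hk n Gᶜ h2 (by rw [compl_compl]; exact h1) hn Y hY
    (X.filter fun x => ¬ ((nb G x Y).card : ℝ) < p * Y.card)
    (fun x hx => ⟨by simp, by
      obtain ⟨hx1, hx2⟩ := mem_filter.mp hx
      have h3 : ¬ ((nb G x Y).card : ℝ) ≤ (1 - p) * Y.card :=
        fun h4 => hX x hx1 ⟨not_lt.mp hx2, h4⟩
      have h5 : ((nb G x Y).card : ℝ) + (nb Gᶜ x Y).card ≤ Y.card := by
        have hd : Disjoint (nb G x Y) (nb Gᶜ x Y) := by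
          rw [disjoint_left]
          intro w hw hw'
          exact (mem_nb.mp hw').2.2 (mem_nb.mp hw).2
        have h6 := card_le_card (union_subset (nb_subset G x Y) (nb_subset Gᶜ x Y))
        rw [card_union_of_disjoint hd] at h6
        exact_mod_cast h6
      push Not at h3
      linarith⟩)
  have a3 : ((X.filter fun x => ((nb G x Y).card : ℝ) < p * Y.card).card : ℝ) +
      (X.filter fun x => ¬ ((nb G x Y).card : ℝ) < p * Y.card).card = X.card := by
    exact_mod_cast card_filter_add_card_filter_not (s := X)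
      (fun x => ((nb G x Y).card : ℝ) < p * Y.card)
  push_cast at a1 a2
  rw [← a3]
  linarith

end Pool.Agent.U416.Bal
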